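import Pool.Agent.Helper97.Speed.RIso
import Pool.Agent.Helper97.Speed.Hull
import Pool.Agent.Helper32.Speed.Net

/-! # Task U7 of MP_f07f0f_pr: regions are connected -/

namespace Pool.Agent.Helper97.Speed

open scoped Classical in
/-- Breadth first search: if a finite set `W` containing `y` has no proper subset containing `y` and
closed under backwards adjacency in `W`, every element of `W` is at distance less than `|W|`. -/
lemma Net.exists_walk_lt (N : Net) (W : Finset ℕ) (y : ℕ) (hy : y ∈ W)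
    (hcl : ∀ A ⊆ W, y ∈ A →
      (∀ d ∈ N.E, N.org d ∈ W → N.org (N.rev d) ∈ A → N.org d ∈ A) → A = W) :
    ∀ x ∈ W, ∃ k < W.card, N.Walk x k y := by
  set A : ℕ → Finset ℕ := fun k => W.filter (fun x => ∃ i ≤ k, N.Walk x i y) with hA
  have hsub : ∀ k, A k ⊆ W := fun k => Finset.filter_subset _ _
  have hyA : ∀ k, y ∈ A k := fun k =>
    Finset.mem_filter.2 ⟨hy, 0, Nat.zero_le _, Net.Walk.nil y⟩
  have hmono : ∀ k, A k ⊆ A (k + 1) := by
    intro k x hx
    obtain ⟨h1, i, hi, hw⟩ := Finset.mem_filter.1 hx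
    exact Finset.mem_filter.2 ⟨h1, i, by omega, hw⟩
  have hstep : ∀ k, A k = W ∨ (A k).card < (A (k + 1)).card := by
    intro k
    by_cases h : A (k + 1) = A k
    · left
      apply hcl _ (hsub k) (hyA k)
      intro d hd hdW hdA
      rw [← h]
      obtain ⟨-, i, hi, hw⟩ := Finset.mem_filter.1 hdA
      exact Finset.mem_filter.2 ⟨hdW, i + 1, by omega, Net.Walk.cons hd hw⟩
    · right
      exact Finset.card_lt_card ((Finset.ssubset_iff_subset_ne).2 ⟨hmono k, fun h' => h h'.symm⟩)
  have hcard : ∀ k, A k = W ∨ k < (A k).card := by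
    intro k
    induction k with
    | zero => right; exact Finset.card_pos.2 ⟨y, hyA 0⟩
    | succ k ih =>
      rcases ih with ih | ih
      · left
        exact Finset.Subset.antisymm (hsub _) (ih ▸ hmono k)
      · rcases hstep k with h | h
        · left
          exact Finset.Subset.antisymm (hsub _) (h ▸ hmono k)
        · right; omega
  have hpos : 0 < W.card := Finset.card_pos.2 ⟨y, hy⟩
  have hlast : A (W.card - 1) = W := by
    rcases hcard (W.card - 1) with h | h
    · exact h
    · exact Finset.eq_of_subset_of_card_le (hsub _) (by omega)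
  intro x hx
  rw [← hlast] at hx
  obtain ⟨-, i, hi, hw⟩ := Finset.mem_filter.1 hx
  exact ⟨i, by omega, hw⟩

namespace PMap

variable {m m₂ : PMap}

open scoped Classical in
theorem Reg.walk_le {j : ℤ} {b n : ℕ} {T : Finset ℕ} (R : Reg m m₂ j b n T)
    (hT : T ≠ ∅) {d : ℕ} (hd : d ∈ m.X T) :
    ∃ k ≤ T.card, R.hp.pre.net.Walk (m.org d) k (m₂.V j) := by
  have hp := R.hp
  set W : Finset ℕ := T.image m.org with hW
  have horgW : ∀ e ∈ m.X T, m.org e ∈ W := by
    rintro e (he | he)
    · exact Finset.mem_image.2 ⟨e, he, rfl⟩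
    · refine Finset.mem_image.2 ⟨m.nxt (m.rev e), (R.tri _ he).2, ?_⟩
      rw [hp.org_nxt _ (R.tri _ he).1, hp.rev_rev]
  have hbdj : m.bd j ∈ T := (R.bd_mem_iff hT).2 ⟨le_rfl, by have := R.posb; omega⟩
  have hy : m₂.V j ∈ W := by
    rw [R.V_le le_rfl]
    exact horgW _ (mem_X hbdj)
  obtain ⟨k, hk, hw⟩ := R.hp.pre.net.exists_walk_lt W (m₂.V j) hy (by
    intro A hAW hyA hcl
    set T' : Set ℕ := {e | e ∈ T ∧ m.org e ∈ A} with hT'
    have hE : ∀ e ∈ m.X T, e ∈ R.hp.pre.net.E := fun e he => R.nest.X_E he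
    have hadj : ∀ e ∈ m.X T, m.org e ∈ A → m.org (m.rev e) ∈ A := by
      intro e he heA
      have h1 := R.nest.X_rev he
      refine hcl (m.rev e) (hE _ h1) (horgW _ h1) ?_
      show m.org (m.rev (m.rev e)) ∈ A
      rw [hp.rev_rev]
      exact heA
    have htri : m.Tri T' := by
      rintro e ⟨he, heA⟩
      refine ⟨(R.tri e he).1, (R.tri e he).2, ?_⟩
      rw [hp.org_nxt _ (R.tri e he).1]
      exact hadj e (mem_X he) heA
    have heq : T' = (T : Set ℕ) := by
      refine hp.inConn (R.chord.toBd hp (R.nontrivial hT)) htri (fun e he => he.1) ?_ ?_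
      · refine ⟨m.bd j, hbdj, ?_⟩
        have : m.org (m.bd j) = m₂.V j := (R.V_le le_rfl).symm
        rw [this]; exact hyA
      · rintro e ⟨he, heA⟩ he'
        exact ⟨he', hadj e (mem_X he) heA⟩
    refine Finset.Subset.antisymm hAW ?_
    intro x hx
    obtain ⟨e, he, rfl⟩ := Finset.mem_image.1 hx
    have : e ∈ T' := by rw [heq]; exact he
    exact this.2) (m.org d) (horgW d hd)
  exact ⟨k, le_trans hk.le (Finset.card_image_le), hw⟩

end PMap

end Pool.Agent.Helper97.Speed
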