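import Pool.Agent.Helper97.Speed.Transfer

/-! # Task U8 of MP_f07f0f_pr: exploration of a special region -/

namespace Pool.Agent.Helper97.Speed

namespace PMap

variable {m : PMap}

/-- The data of a special region. -/
lemma special_data (h : m.IsHalfPlane) {m₂ : PMap}
    (hS : m.Sub (-1) 0 1 2 (.split (.split .edge .edge) .edge) m₂) :
    ∃ (p₀ p₁ e : ℕ) (S : Finset ℕ), m.Chord (-1) 2 [p₀, p₁] S ∧
      m₂ = m.cut (-1) 2 [p₀, p₁] S ∧ e = m.rev (m.nxt (m.bd (-1))) ∧ e ∈ m.In ∧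
      m.nxt e = m.bd 0 ∧ m.nxt (m.bd 0) = m.rev p₁ ∧
      m.nxt (m.nxt (m.bd (-1))) = m.rev p₀ := by
  obtain ⟨p, S, ch, hlen, hF, hm₂⟩ := hS
  rcases p with _ | ⟨p₀, _ | ⟨p₁, _ | ⟨x, q⟩⟩⟩
  · simp at hlen
  · simp at hlen
  · simp only [zero_add] at ch hm₂ hF
    have hcyc : m.cyc (-1) (1 + 1) [p₀, p₁] = [m.bd (-1), m.bd 0, m.rev p₁, m.rev p₀] := by
      simp [cyc, List.range_succ]
    norm_num at ch hm₂ hF hcyc
    rw [hcyc] at hF
    obtain ⟨d, t₁, t₂, h1, hd, h2, h3⟩ := hF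
    obtain ⟨d', s₁, s₂, h4, hd', h5, h6⟩ := h2
    obtain ⟨a1, h7⟩ := h5
    obtain ⟨a2, h8⟩ := h6
    obtain ⟨a3, h9⟩ := h3
    simp only [List.cons.injEq] at h1 h4 h7 h8 h9
    obtain ⟨rfl, h1⟩ := h1
    obtain ⟨h4a, h4b⟩ := h4
    obtain ⟨h7a, h7b⟩ := h7
    obtain ⟨h8a, h8b⟩ := h8
    obtain ⟨h9a, h9b⟩ := h9
    subst h7b h8b h9b
    subst h4b
    rw [← h7a, ← h8a, ← h9a] at h1
    simp only [h.rev_rev, List.cons_append, List.nil_append, List.cons.injEq, and_true] at h1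
    obtain ⟨h10, h11, h12⟩ := h1
    refine ⟨p₀, p₁, m.rev (m.nxt (m.bd (-1))), S, ch, hm₂, rfl, ?_, ?_, ?_, h12.symm⟩
    · rw [h4a]; exact hd'
    · rw [h4a]; exact h10.symm
    · rw [h10, h11]
  · simp at hlen

theorem special_explore (h : m.IsHalfPlane) {m₂ : PMap}
    (hS : m.Sub (-1) 0 1 2 (.split (.split .edge .edge) .edge) m₂) :
    m.explore 0 = m₂ ∧ m.deg (m.V 0) = 3 ∧ m.org (m.rev (m.rot (m.bd 0))) = m₂.V 0 ∧
      m.rev (m.rot (m.bd 0)) ∉ m₂.E ∧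
      (∀ d ∈ m.E, m.org d = m₂.V 0 → d ∈ m₂.E ∨ d = m.rev (m.rot (m.bd 0))) := by
  obtain ⟨p₀, p₁, e, S, ch, hm₂, he, heIn, hne, hn0, hnn⟩ := special_data h hS
  have hp := h.pre
  have R : Reg m m₂ (-1) 2 2 S := by
    have := ch.reg h
    rw [← hm₂] at this
    simpa using this
  have hb0 := h.bd_mem 0
  have hb1 := h.bd_mem (-1)
  have hnt : ¬ Trivial m (-1) 2 [p₀, p₁] := by rintro ⟨h1, -⟩; omega
  -- the darts
  have hrev : m.rev e = m.nxt (m.bd (-1)) := by rw [he, h.rev_rev]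
  have he3 : m.nxt (m.nxt (m.bd 0)) = e := by
    rw [← hne]; exact h.nxt_nxt_nxt e heIn
  have hrot : m.rev (m.rot (m.bd 0)) = e := by
    rw [rot_of_mem hb0, h.rev_rev, he3]
  have hbd0 : m₂.bd (-1) = p₀ := by
    rw [hm₂]
    have := cut_bd_mid (m := m) (j := -1) (b := 2) (S := (S : Set ℕ)) (p := [p₀, p₁]) (s := 0)
      (by simp)
    simpa using this
  have hbd1 : m₂.bd 0 = p₁ := by
    rw [hm₂]
    have := cut_bd_mid (m := m) (j := -1) (b := 2) (S := (S : Set ℕ)) (p := [p₀, p₁]) (s := 1)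
      (by simp)
    simpa using this
  have hw : m₂.V 0 = m.org p₁ := by rw [V, hbd1, R.org]
  have hoe : m.org e = m₂.V 0 := by
    rw [hw, ← he3, ← hp.org_rev_nxt hb0, hn0, h.rev_rev]
  have hwV : ∀ i, m.V i ≠ m₂.V 0 := fun i hi => R.inner 0 (by omega) (by norm_num) i hi.symm
  -- the set S
  have hb0S : m.bd 0 ∈ S := ch.base_mem h hnt (by omega) (by norm_num)
  have hb1S : m.bd (-1) ∈ S := ch.base_mem h hnt (by omega) (by norm_num)
  have hn1S : m.nxt (m.bd (-1)) ∈ S := R.tri.nxt_mem hb1S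
  have hnn1S : m.nxt (m.nxt (m.bd (-1))) ∈ S := R.tri.nxt_mem hn1S
  have hn0S : m.nxt (m.bd 0) ∈ S := R.tri.nxt_mem hb0S
  have heS : e ∈ S := by rw [← he3]; exact R.tri.nxt_mem hn0S
  have hp0 := ch.path_mem h (d := p₀) (by simp)
  have hp1 := ch.path_mem h (d := p₁) (by simp)
  set S₂ : Set ℕ := {m.bd (-1), m.nxt (m.bd (-1)), m.nxt (m.nxt (m.bd (-1))), e, m.bd 0,
    m.nxt (m.bd 0)} with hS₂
  have hsub : S₂ ⊆ (S : Set ℕ) := by
    intro x hx
    simp only [hS₂, Set.mem_insert_iff, Set.mem_singleton_iff] at hx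
    rcases hx with rfl | rfl | rfl | rfl | rfl | rfl <;> assumption
  have htri : m.Tri S₂ := by
    intro x hx
    refine ⟨(R.tri x (hsub hx)).1, ?_⟩
    simp only [hS₂, Set.mem_insert_iff, Set.mem_singleton_iff] at hx ⊢
    rcases hx with rfl | rfl | rfl | rfl | rfl | rfl
    · simp
    · simp
    · simp [h.nxt_nxt_nxt _ hb1]
    · simp [hne]
    · simp
    · simp [he3]
  have hS' : (S : Set ℕ) = S₂ := by
    refine h.unique R.tri htri S.finite_toSet (S.finite_toSet.subset hsub) ?_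
    intro d
    have h1 := ch.bdry' hp hnt d
    simp only [Finset.mem_coe]
    rw [h1]
    have hcyc : d ∈ m.cyc (-1) 2 [p₀, p₁] ↔
        d = m.bd (-1) ∨ d = m.bd 0 ∨ d = m.rev p₁ ∨ d = m.rev p₀ := by
      simp [cyc, List.range_succ]
    rw [hcyc]
    constructor
    · rintro (rfl | rfl | rfl | rfl)
      · exact ⟨by simp [hS₂], fun h2 => h.rev_bd (-1) (htri _ h2).1⟩
      · exact ⟨by simp [hS₂], fun h2 => h.rev_bd 0 (htri _ h2).1⟩
      · refine ⟨by simp [hS₂, ← hn0], fun h2 => ?_⟩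
        rw [h.rev_rev] at h2
        exact hp1.2.1 (hsub h2)
      · refine ⟨by simp [hS₂, ← hnn], fun h2 => ?_⟩
        rw [h.rev_rev] at h2
        exact hp0.2.1 (hsub h2)
    · rintro ⟨h2, h3⟩
      have h2' := h2
      simp only [hS₂, Set.mem_insert_iff, Set.mem_singleton_iff] at h2'
      rcases h2' with rfl | rfl | rfl | rfl | rfl | rfl
      · simp
      · exfalso; apply h3; rw [← he]; simp [hS₂]
      · simp [hnn]
      · exfalso; apply h3; rw [hrev]; simp [hS₂]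
      · simp
      · simp [hn0]
  -- the exploration
  have hexp : m.explore 0 = m₂ := by
    obtain ⟨j₁, b₁, n₁, T₁, P₁⟩ := peel_spec h 0
    have hthd : m.thd 0 = m₂.V 0 := by rw [thd, he3, hoe]
    have hc1 : j₁ = 0 ∧ b₁ = 1 ∧ n₁ = 2 ∧ (m.peel 0).bd 0 = m.nxt (m.bd (-1)) ∧
        (m.peel 0).bd 1 = p₁ := by
      rcases P₁.cases with ⟨a1, a2, a3, -, a4, a5⟩ | ⟨-, -, -, a1, -⟩ | ⟨-, -, -, a1, -⟩
      · refine ⟨a1, a2, a3, ?_, ?_⟩
        · rw [a4, he3, hrev]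
        · rw [zero_add] at a5
          rw [a5, hn0, h.rev_rev]
      · exact absurd (a1.trans hthd) (hwV _)
      · exact absurd (a1.trans hthd) (hwV _)
    obtain ⟨rfl, rfl, rfl, hq0, hq1⟩ := hc1
    set m₁ := m.peel 0 with hm₁
    have R₁ := P₁.reg
    have h₁ := R₁.hp₂
    have hV0 : m₁.V 0 = m.V 0 := R₁.V_le le_rfl
    obtain ⟨j₂, b₂, n₂, T₂, P₂⟩ := peel_spec h₁ 0
    have hV1 : m₁.V (-1) = m.V (-1) := R₁.V_le (by omega)
    have hthd₁ : m₁.thd 0 = m₁.V (-1) := by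
      rw [hV1, thd, hq0, R₁.nxt, R₁.org, h.nxt_nxt_nxt _ hb1, V]
    have hc2 : j₂ = -1 ∧ b₂ = 2 ∧ n₂ = 1 ∧ (m₁.peel 0).bd (-1) = p₀ := by
      rcases P₂.cases with ⟨-, -, -, a1, -⟩ | ⟨a0, a2, -, a1, -⟩ | ⟨a0, a1, a2, a3, a4⟩
      · exact absurd hthd₁.symm (a1 (-1))
      · have := h₁.pre.V_inj (a1.trans hthd₁)
        omega
      · have h5 := h₁.pre.V_inj (a3.trans hthd₁)
        subst h5
        refine ⟨rfl, by omega, a2, ?_⟩
        rw [a4, hq0, R₁.rev, R₁.nxt, hnn, h.rev_rev]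
    obtain ⟨rfl, rfl, rfl, hq2⟩ := hc2
    have hne' : ¬ (m₁.peel 0).V 0 = m₁.V 0 := by
      rw [P₂.V_eq_iff]; omega
    have hm : m.explore 0 = m₁.peel 0 := by
      rw [explore_step h 0, ← hm₁, if_pos hV0, explore_step h₁ 0, if_neg hne']
    rw [hm]
    have RR := R₁.comp P₂.reg (by norm_num) (by norm_num)
    have hq3 : (m₁.peel 0).bd 0 = p₁ := by
      rw [P₂.reg.ge 0 (by norm_num)]
      norm_num
      exact hq1
    have e1 : (min (0 : ℤ) (-1)) = -1 := by norm_num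
    rw [e1] at RR
    have e2 : (max ((0 : ℤ) + (2 : ℕ)) (-1 + (2 : ℕ)) - (2 : ℕ) + (1 : ℕ) - (-1)).toNat = 2 := by
      omega
    rw [e2] at RR
    have hpth : Reg.pth (m₁.peel 0) (-1) 2 = [p₀, p₁] := by
      simp [Reg.pth, List.range_succ, hq2, hq3]
    have hpth₂ : Reg.pth m₂ (-1) 2 = [p₀, p₁] := by
      simp [Reg.pth, List.range_succ, hbd0, hbd1]
    have ch' := RR.chord
    rw [hpth] at ch'
    have hTS := ch'.unique h ch
    rw [RR.eq_cut, hpth, hTS, hm₂]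
  -- darts at the swallowed vertex
  have hdist : m.bd 0 ≠ m.nxt (m.bd (-1)) := by
    intro h1
    have h2 : e = m.bd (-1) := hp.nxt_inj heIn hb1 (by rw [hne, h1])
    apply hwV (-1)
    rw [← hoe, h2, V]
  have hon : m.org (m.nxt (m.bd (-1))) = m.V 0 := by
    rw [h.org_nxt _ hb1, h.org_rev_bd]; rfl
  have horv : m.org (m.rev (m.bd (-1))) = m.V 0 := by
    rw [h.org_rev_bd]; rfl
  have hrot0 : m.rot (m.bd 0) = m.nxt (m.bd (-1)) := by
    rw [← h.rev_rev (m.rot (m.bd 0)), hrot, hrev]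
  have hrot1 : m.rot (m.nxt (m.bd (-1))) = m.rev (m.bd (-1)) := by
    rw [rot_of_mem (h.nxt_mem _ hb1), h.nxt_nxt_nxt _ hb1]
  have hrot2 : m.rot (m.rev (m.bd (-1))) = m.bd 0 := by
    rw [hp.rot_rev_bd]; norm_num
  have hdeg : {d | d ∈ m.E ∧ m.org d = m.V 0} =
      ({m.bd 0, m.nxt (m.bd (-1)), m.rev (m.bd (-1))} : Set ℕ) := by
    ext d
    simp only [Set.mem_ofPred_eq, Set.mem_insert_iff, Set.mem_singleton_iff]
    constructor
    · rintro ⟨hd, hd0⟩
      obtain ⟨n, hn⟩ := h.exists_rot (mem_E_of_mem hb0) hd hd0.symm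
      rw [← hn]
      clear hn
      induction n with
      | zero => simp
      | succ n ih =>
        rw [Function.iterate_succ_apply']
        rcases ih with ih | ih | ih
        · rw [ih, hrot0]; simp
        · rw [ih, hrot1]; simp
        · rw [ih, hrot2]; simp
    · rintro (rfl | rfl | rfl)
      · exact ⟨mem_E_of_mem hb0, rfl⟩
      · exact ⟨mem_E_of_mem (h.nxt_mem _ hb1), hon⟩
      · exact ⟨hp.rev_mem_E_of_mem hb1, horv⟩
  refine ⟨hexp, ?_, ?_, ?_, ?_⟩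
  · rw [deg, hdeg]
    rw [Set.ncard_insert_of_notMem, Set.ncard_pair]
    · intro h1
      exact h.rev_bd (-1) (h1 ▸ h.nxt_mem _ hb1)
    · simp only [Set.mem_insert_iff, Set.mem_singleton_iff, not_or]
      refine ⟨hdist, fun h1 => h.rev_bd (-1) (h1 ▸ hb0)⟩
  · rw [hrot, hoe]
  · rw [hrot]
    rintro (h1 | h1)
    · rw [R.In] at h1; exact h1.2 heS
    · rw [R.rev, hrev, R.In] at h1; exact h1.2 hn1S
  · intro d hd hdo
    rw [hrot]
    by_contra hcon
    push Not at hcon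
    obtain ⟨h1, h2⟩ := hcon
    have hd1 : d ∉ m₂.In := fun h3 => h1 (Or.inl h3)
    have hd2 : m.rev d ∉ m₂.In := fun h3 => h1 (Or.inr (by rw [R.rev]; exact h3))
    rw [R.In] at hd1 hd2
    have key : d ∈ S₂ ∨ m.rev d ∈ S₂ := by
      rw [← hS']
      rcases hd with hd | hd
      · left; by_contra h3; exact hd1 ⟨hd, h3⟩
      · right; by_contra h3; exact hd2 ⟨hd, h3⟩
    have hp0E : p₀ ∈ m₂.In := by rw [← hbd0]; exact R.hp₂.bd_mem _
    have hp1E : p₁ ∈ m₂.In := by rw [← hbd1]; exact R.hp₂.bd_mem _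
    rcases key with h3 | h3
    · simp only [hS₂, Set.mem_insert_iff, Set.mem_singleton_iff] at h3
      rcases h3 with rfl | rfl | rfl | rfl | rfl | rfl
      · exact hwV (-1) hdo
      · exact hwV 0 (by rw [← hdo, hon])
      · apply h1
        rw [hnn]
        exact Or.inr (by rw [R.rev, h.rev_rev]; exact hp0E)
      · exact h2 rfl
      · exact hwV 0 hdo
      · refine hwV 1 ?_
        rw [← hdo, h.org_nxt _ hb0, h.org_rev_bd]
        rfl
    · have hd' : d = m.rev (m.rev d) := (h.rev_rev d).symm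
      simp only [hS₂, Set.mem_insert_iff, Set.mem_singleton_iff] at h3
      rcases h3 with h3 | h3 | h3 | h3 | h3 | h3
      · rw [h3] at hd'
        exact hwV 0 (by rw [← hdo, hd', horv])
      · rw [h3, ← he] at hd'
        exact h2 hd'
      · rw [h3, hnn, h.rev_rev] at hd'
        refine hwV (-1) ?_
        rw [← hdo, hd', ← hbd0, ← R.org]
        exact (R.V_le le_rfl).symm
      · rw [h3, hrev] at hd'
        exact hwV 0 (by rw [← hdo, hd', hon])
      · rw [h3] at hd'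
        refine hwV 1 ?_
        rw [← hdo, hd', h.org_rev_bd]
        rfl
      · rw [h3, hn0, h.rev_rev] at hd'
        exact h1 (Or.inl (hd' ▸ hp1E))

end PMap

end Pool.Agent.Helper97.Speed
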